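import Pool.Agent.W661.DilEx

/-!
# Three commuting unital completely positive maps without any dilation

There are three commuting unital completely positive maps on `B(ℂ^10)` such that the associated
CP-semigroup over `ℕ³` has no dilation whatsoever to an E-semigroup over `ℕ³` on a von Neumann
algebra.

Idea. If `(p, K, 𝓑, θ)` is a dilation, the spaces `F_s` of all `x ∈ 𝓑` with `θ_s(a) x = x a` for
`a ∈ B(H) = p 𝓑 p` are Hilbert spaces with `⟨x, y⟩ p = x* y`, and `(x, y) ↦ θ_t(x) y` is an
isometric associative multiplication `F_s × F_t → F_{s+t}`. The Kraus operators of the maps below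
are chosen such that they force relations `f₁ g₁ = g₁ f₁`, `f₁ g₂ = - g₂ f₁`, `f₂ g₁ = g₂ f₂`,
`f₁ f₂ = f₂ f₁` between unit vectors `f₁, f₂, g₁, g₂` of `F_{e₁}, F_{e₂}, F_{e₃}, F_{e₃}`,
hence `g₂ f₁ f₂ = f₁ f₂ g₁ = - g₂ f₁ f₂`, a contradiction.
-/

set_option autoImplicit false

open scoped CStarAlgebra ComplexOrder InnerProductSpace
open ContinuousLinearMap

namespace Pool.Agent.Results.MP_0a86e9_an.NoDilation

universe u

/-- The operator `J a J*` on `K`, for an isometric embedding `J : H → K` and an operator `a` on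
`H`: this is `a`, considered as an operator on the subspace `J(H)` of `K` and extended by `0` to
the orthogonal complement. `corner J 1` is the orthogonal projection of `K` onto `J(H)`. -/
noncomputable def corner {H K : Type*} [NormedAddCommGroup H] [InnerProductSpace ℂ H]
    [CompleteSpace H] [NormedAddCommGroup K] [InnerProductSpace ℂ K] [CompleteSpace K]
    (J : H →ₗᵢ[ℂ] K) (a : H →L[ℂ] H) : K →L[ℂ] K :=
  J.toContinuousLinearMap ∘L a ∘L adjoint J.toContinuousLinearMap

/-- The compression `p b p` of an operator `b` on `K` by the projection `p = J J*` onto `J(H)`. -/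
noncomputable def compress {H K : Type*} [NormedAddCommGroup H] [InnerProductSpace ℂ H]
    [CompleteSpace H] [NormedAddCommGroup K] [InnerProductSpace ℂ K] [CompleteSpace K]
    (J : H →ₗᵢ[ℂ] K) (b : K →L[ℂ] K) : K →L[ℂ] K :=
  corner J 1 * b * corner J 1

/-- `f` is linear on the von Neumann algebra `𝓑`. -/
structure IsLinearOn {K : Type*} [NormedAddCommGroup K] [InnerProductSpace ℂ K] [CompleteSpace K]
    (𝓑 : VonNeumannAlgebra K) (f : (K →L[ℂ] K) → (K →L[ℂ] K)) : Prop where
  add : ∀ x ∈ 𝓑, ∀ y ∈ 𝓑, f (x + y) = f x + f y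
  smul : ∀ c : ℂ, ∀ x ∈ 𝓑, f (c • x) = c • f x

/-- The map `f` (only its values on the von Neumann algebra `𝓑` matter) is a, not necessarily
unital and not necessarily normal, `*`-endomorphism of `𝓑`. -/
structure IsStarEndo {K : Type*} [NormedAddCommGroup K] [InnerProductSpace ℂ K] [CompleteSpace K]
    (𝓑 : VonNeumannAlgebra K) (f : (K →L[ℂ] K) → (K →L[ℂ] K)) : Prop where
  maps : ∀ x ∈ 𝓑, f x ∈ 𝓑
  linear : IsLinearOn 𝓑 f
  mul : ∀ x ∈ 𝓑, ∀ y ∈ 𝓑, f (x * y) = f x * f y
  star : ∀ x ∈ 𝓑, f (star x) = star (f x)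

/-- `(p, K, 𝓑, θ)`, with `p = J J*` the orthogonal projection of `K` onto `H ≅ J(H)`, is a dilation
of the family `T` (indexed by `ℕ^k`) of maps on `𝓐 = B(H)`: the von Neumann algebra `𝓑` contains
`p`, the corner `p 𝓑 p` is `B(H)` (i.e. consists of all operators `J a J*`), `θ` is a semigroup over
`ℕ^k` of (not necessarily unital) `*`-endomorphisms of `𝓑`, and `p θ_s(a) p = T_s(a)` for all
`s ∈ ℕ^k` and `a ∈ B(H) = p 𝓑 p`. (Normality of the `θ_s` is not required.) -/
structure IsDilation {H K : Type*} [NormedAddCommGroup H] [InnerProductSpace ℂ H]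
    [CompleteSpace H] [NormedAddCommGroup K] [InnerProductSpace ℂ K] [CompleteSpace K] {k : ℕ}
    (T : (Fin k → ℕ) → (H →L[ℂ] H) → (H →L[ℂ] H)) (J : H →ₗᵢ[ℂ] K) (𝓑 : VonNeumannAlgebra K)
    (θ : (Fin k → ℕ) → (K →L[ℂ] K) → (K →L[ℂ] K)) : Prop where
  proj_mem : corner J 1 ∈ 𝓑
  corner_eq : compress J '' 𝓑 = Set.range (corner J)
  endo : ∀ s, IsStarEndo 𝓑 (θ s)
  zero : ∀ b ∈ 𝓑, θ 0 b = b
  add : ∀ s t, ∀ b ∈ 𝓑, θ (s + t) b = θ s (θ t b)
  dil : ∀ s a, compress J (θ s (corner J a)) = corner J (T s a)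

/-- completely positive maps on `B(H)` -/
abbrev CPMap (H : Type*) [NormedAddCommGroup H] [InnerProductSpace ℂ H] [CompleteSpace H] :
    Type _ := (H →L[ℂ] H) →CP (H →L[ℂ] H)

/-- The value `T(a)`. -/
noncomputable def app {H : Type*} [NormedAddCommGroup H] [InnerProductSpace ℂ H] [CompleteSpace H]
    (T : CPMap H) (a : H →L[ℂ] H) : H →L[ℂ] H := T a

/-- The completely positive map `T` is unital, `T(1) = 1`. -/
def Unital {H : Type*} [NormedAddCommGroup H] [InnerProductSpace ℂ H] [CompleteSpace H]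
    (T : CPMap H) : Prop := app T 1 = 1

/-- The completely positive maps `S` and `T` commute, `S ∘ T = T ∘ S`. -/
def Commuting {H : Type*} [NormedAddCommGroup H] [InnerProductSpace ℂ H] [CompleteSpace H]
    (S T : CPMap H) : Prop := ∀ a, app S (app T a) = app T (app S a)

/-- The semigroup `T_s = T₀^{s₀} T₁^{s₁} T₂^{s₂}` over `ℕ³` generated by three (commuting) completely
positive maps. -/
noncomputable def semigroup {H : Type*} [NormedAddCommGroup H] [InnerProductSpace ℂ H]
    [CompleteSpace H] (T : Fin 3 → CPMap H) (s : Fin 3 → ℕ) (a : H →L[ℂ] H) : H →L[ℂ] H :=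
  (app (T 0))^[s 0] ((app (T 1))^[s 1] ((app (T 2))^[s 2] a))

/-- The semigroup generated by `T₀, T₁, T₂` has a dilation `(p, K, 𝓑, θ)` with a Hilbert space `K`
in the universe `u`. -/
def HasDilation {H : Type*} [NormedAddCommGroup H] [InnerProductSpace ℂ H] [CompleteSpace H]
    (T : Fin 3 → CPMap H) : Prop :=
  ∃ (K : Type u) (_ : NormedAddCommGroup K) (_ : InnerProductSpace ℂ K) (_ : CompleteSpace K)
    (J : H →ₗᵢ[ℂ] K) (𝓑 : VonNeumannAlgebra K) (θ : (Fin 3 → ℕ) → (K →L[ℂ] K) → (K →L[ℂ] K)),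
      IsDilation (semigroup T) J 𝓑 θ

section aux

variable {H K : Type*} [NormedAddCommGroup H] [InnerProductSpace ℂ H]
    [CompleteSpace H] [NormedAddCommGroup K] [InnerProductSpace ℂ K] [CompleteSpace K]
    (J : H →ₗᵢ[ℂ] K)

lemma adj_comp : adjoint J.toContinuousLinearMap ∘L J.toContinuousLinearMap = 1 := by
  ext x
  apply ext_inner_right ℂ
  intro y
  rw [ContinuousLinearMap.comp_apply, adjoint_inner_left]
  exact J.inner_map_map x y

lemma corner_mul (a b : H →L[ℂ] H) : corner J a * corner J b = corner J (a * b) := by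
  unfold corner
  ext x
  have := congrArg (fun f => f (b (adjoint J.toContinuousLinearMap x))) (adj_comp J)
  simp only [ContinuousLinearMap.comp_apply, one_apply_eq_self] at this
  simp only [mul_apply_eq_comp, ContinuousLinearMap.comp_apply, this]

lemma corner_star (a : H →L[ℂ] H) : corner J (star a) = star (corner J a) := by
  unfold corner
  rw [star_eq_adjoint, star_eq_adjoint, adjoint_comp, adjoint_comp, adjoint_adjoint]
  rfl

lemma corner_add (a b : H →L[ℂ] H) : corner J (a + b) = corner J a + corner J b := by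
  unfold corner
  ext x
  simp

lemma corner_smul (c : ℂ) (a : H →L[ℂ] H) : corner J (c • a) = c • corner J a := by
  unfold corner
  ext x
  simp

lemma corner_zero : corner J (0 : H →L[ℂ] H) = 0 := by
  unfold corner
  ext x
  simp

lemma corner_inj {a b : H →L[ℂ] H} (h : corner J a = corner J b) : a = b := by
  have e : ∀ c : H →L[ℂ] H, c = adjoint J.toContinuousLinearMap ∘L corner J c ∘L
      J.toContinuousLinearMap := by
    intro c
    unfold corner
    ext x
    have := fun y => congrArg (fun f => f y) (adj_comp J)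
    simp only [ContinuousLinearMap.comp_apply, one_apply_eq_self] at this
    simp only [ContinuousLinearMap.comp_apply, this]
  rw [e a, h, ← e b]

end aux

/-- `B(ℂ^10)` -/
abbrev Op : Type := EuclideanSpace ℂ (Fin 10) →L[ℂ] EuclideanSpace ℂ (Fin 10)

/-- matrices as operators -/
noncomputable abbrev φ : Matrix (Fin 10) (Fin 10) ℂ ≃⋆ₐ[ℂ] Op :=
  Matrix.toEuclideanCLM (n := Fin 10) (𝕜 := ℂ)

open Pool.Agent.W661.Dil

/-- the completely positive maps -/
noncomputable def mp (L L' : Matrix (Fin 10) (Fin 10) ℂ) (c : Fin 10 → Bool) : Op →CP Op :=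
  kraus (fun k => φ (VV L L' c k))

lemma mp_apply (L L' : Matrix (Fin 10) (Fin 10) ℂ) (c : Fin 10 → Bool)
    (M : Matrix (Fin 10) (Fin 10) ℂ) : mp L L' c (φ M) = φ (TT L L' c M) := by
  unfold mp TT
  rw [kraus_apply, map_sum]
  refine Finset.sum_congr rfl fun k _ => ?_
  rw [map_mul, map_mul, map_star]

lemma mp_one {L L' : Matrix (Fin 10) (Fin 10) ℂ} {c : Fin 10 → Bool} (h : Good L L' c) :
    mp L L' c 1 = 1 := by
  rw [← map_one φ, mp_apply, TT_one h]

lemma mp_comm {L L' K K' : Matrix (Fin 10) (Fin 10) ℂ} {c d : Fin 10 → Bool}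
    (h : ∀ M, TT L L' c (TT K K' d M) = TT K K' d (TT L L' c M)) (a : Op) :
    mp L L' c (mp K K' d a) = mp K K' d (mp L L' c a) := by
  obtain ⟨M, rfl⟩ : ∃ M, φ M = a := ⟨φ.symm a, by simp⟩
  rw [mp_apply, mp_apply, mp_apply, mp_apply, h]

/-- **There are three commuting unital completely positive maps on `B(ℂ^10)` such that the
associated CP-semigroup over `ℕ³` has no dilation at all.** -/
theorem result :
    ∃ T : Fin 3 → CPMap (EuclideanSpace ℂ (Fin 10)),
      (∀ i, Unital (T i)) ∧ (∀ i j, Commuting (T i) (T j)) ∧ ¬ HasDilation.{u} T := by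
  refine ⟨![mp L1 0 c1, mp L2 0 c2, mp L31 L32 c3], ?_, ?_, ?_⟩
  · intro i
    fin_cases i
    · exact mp_one good1
    · exact mp_one good2
    · exact mp_one good3
  · intro i j a
    fin_cases i <;> fin_cases j
    · rfl
    · exact mp_comm comm12 a
    · exact mp_comm comm13 a
    · exact (mp_comm comm12 a).symm
    · rfl
    · exact mp_comm comm23 a
    · exact (mp_comm comm13 a).symm
    · exact (mp_comm comm23 a).symm
    · rfl
  · rintro ⟨K, _, _, _, J, 𝓑, θ₀, hθ⟩
    have hmem : ∀ a : Op, corner J a ∈ 𝓑.toStarSubalgebra := by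
      intro a
      have h : corner J a ∈ Set.range (corner J) := ⟨a, rfl⟩
      rw [← hθ.corner_eq] at h
      obtain ⟨b, hb, hab⟩ := h
      rw [← hab]
      exact mul_mem (mul_mem hθ.proj_mem hb) hθ.proj_mem
    let θ : (Fin 3 → ℕ) → (𝓑.toStarSubalgebra →⋆ₙₐ[ℂ] 𝓑.toStarSubalgebra) := fun s =>
      { toFun := fun x => ⟨θ₀ s x, (hθ.endo s).maps x x.2⟩
        map_smul' := fun c x => Subtype.ext ((hθ.endo s).linear.smul c x x.2)
        map_zero' := Subtype.ext (by
          have h := (hθ.endo s).linear.smul 0 0 (zero_mem 𝓑.toStarSubalgebra)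
          rw [zero_smul, zero_smul] at h
          exact h)
        map_add' := fun x y => Subtype.ext ((hθ.endo s).linear.add x x.2 y y.2)
        map_mul' := fun x y => Subtype.ext ((hθ.endo s).mul x x.2 y y.2)
        map_star' := fun x => Subtype.ext ((hθ.endo s).star x x.2) }
    have hθ₀ : ∀ s (x : 𝓑.toStarSubalgebra),
        ((θ s x : 𝓑.toStarSubalgebra) : K →L[ℂ] K) = θ₀ s x := fun s x => rfl
    let j : Matrix (Fin 10) (Fin 10) ℂ →⋆ₙₐ[ℂ] 𝓑.toStarSubalgebra :=
      { toFun := fun M => ⟨corner J (φ M), hmem _⟩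
        map_smul' := fun c M => Subtype.ext (by
          simp only [map_smul, corner_smul, MonoidHom.id_apply]
          rfl)
        map_zero' := Subtype.ext (by simp only [map_zero, corner_zero]; rfl)
        map_add' := fun M N => Subtype.ext (by simp only [map_add, corner_add]; rfl)
        map_mul' := fun M N => Subtype.ext (by simp only [map_mul, ← corner_mul]; rfl)
        map_star' := fun M => Subtype.ext (by simp only [map_star, corner_star]; rfl) }
    have hj : ∀ M, ((j M : 𝓑.toStarSubalgebra) : K →L[ℂ] K) = corner J (φ M) := fun M => rfl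
    have hR : ∀ x : 𝓑.toStarSubalgebra, star x * x = 0 → x = 0 := by
      intro x hx
      apply Subtype.ext
      have h := congrArg (Subtype.val) hx
      exact (CStarRing.star_mul_self_eq_zero_iff (x : K →L[ℂ] K)).1 h
    have hj0 : j 1 ≠ 0 := by
      intro h
      have h1 := congrArg (Subtype.val) h
      rw [hj, map_one] at h1
      have h2 := corner_inj J (h1.trans (corner_zero J).symm)
      exact one_ne_zero h2
    have hcomm : ∀ s t : Fin 3 → ℕ, ∀ x, θ s (θ t x) = θ t (θ s x) := by
      intro s t x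
      apply Subtype.ext
      have h1 := hθ.add s t x x.2
      have h2 := hθ.add t s x x.2
      rw [add_comm t s] at h2
      exact h1.symm.trans h2
    have hT : ∀ (s : Fin 3 → ℕ) (TM : Matrix (Fin 10) (Fin 10) ℂ → Matrix (Fin 10) (Fin 10) ℂ),
        (∀ M, semigroup ![mp L1 0 c1, mp L2 0 c2, mp L31 L32 c3] s (φ M) = φ (TM M)) →
        ∀ M, j 1 * θ s (j M) * j 1 = j (TM M) := by
      intro s TM h M
      apply Subtype.ext
      have := hθ.dil s (φ M)
      rw [h M] at this
      unfold compress at this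
      rw [hj, ← this]
      have h1 : ((j 1 : 𝓑.toStarSubalgebra) : K →L[ℂ] K) = corner J 1 := by rw [hj, map_one]
      rw [← h1]
      rfl
    have hT1 := hT (Pi.single 0 1) (TT L1 0 c1) (fun M => by
      simpa [semigroup, app] using mp_apply L1 0 c1 M)
    have hT2 := hT (Pi.single 1 1) (TT L2 0 c2) (fun M => by
      simpa [semigroup, app] using mp_apply L2 0 c2 M)
    have hT3 := hT (Pi.single 2 1) (TT L31 L32 c3) (fun M => by
      simpa [semigroup, app] using mp_apply L31 L32 c3 M)
    clear_value θ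
    set θ₁ := θ (Pi.single 0 1)
    set θ₂ := θ (Pi.single 1 1)
    set θ₃ := θ (Pi.single 2 1)
    exact W661.Dil.final hR j hj0 θ₁ θ₂ θ₃ (hcomm _ _) (hcomm _ _) (hcomm _ _) hT1 hT2 hT3

end Pool.Agent.Results.MP_0a86e9_an.NoDilation
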